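import Pool.Agent.Run7.h528.SP.Model

/-!
# Special actions: the action of the right-angled Coxeter group
-/

set_option autoImplicit false

namespace Run7.h528.SP

open SimpleGraph
open Run7.h528.PP (GPP)

section act

variable {G V : Type} [Group G] [MulAction G V] {T : SimpleGraph V} {N : Subgroup G}
  (hs : Special T N)

include hs in
theorem rf_invol (s : CS T N) : Function.Involutive (rf s) := by
  rintro ⟨v, β⟩
  by_cases h : Pos s
  · by_cases ha : ∃ a, Ed (dir s (β (un s))) v a
    · obtain ⟨a, ha⟩ := ha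
      rw [rf_move hs h ha]
      have h1 : Ed (dir s (fl s β (un s))) a v := by
        rw [fl_same, dir_not]
        exact ha.rev
      rw [rf_move hs h h1, fl_fl]
    · have ha' : ∀ a, ¬ Ed (dir s (β (un s))) v a := fun a h2 => ha ⟨a, h2⟩
      rw [rf_stay h ha', rf_stay h ha']
  · rw [rf_neg h, rf_neg h, fl_fl]

include hs in
theorem un_ne {s t : CS T N} (h : (Cr T N).Adj s t) : un s ≠ un t := by
  intro h1
  rcases un_eq h1 with h2 | h2
  · exact (Cr T N).ne_of_adj h h2.symm
  · exact (Cr T N).ne_of_adj (Cr.bar_left hs h) h2.symm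

include hs in
theorem adj_dir {s t : CS T N} (h : (Cr T N).Adj s t) (b b' : Bool) :
    (Cr T N).Adj (dir s b) (dir t b') := by
  cases b <;> cases b'
  · exact h
  · exact Cr.bar_right hs h
  · exact Cr.bar_left hs h
  · exact Cr.bar_left hs (Cr.bar_right hs h)

/-- an edge of the class `t` at the other end of an edge of the class `s` -/
theorem ed_transfer (hs : Special T N) {s t : CS T N} (h : (Cr T N).Adj s t) {v a d : V}
    (ha : Ed s v a) (hd : Ed t a d) : ∃ e, Ed t v e := by
  obtain ⟨e, he⟩ := inter hs (Cr.bar_left hs h) ha.1.symm hd.1 (by rw [← ha.2, bar_cls]) hd.2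
  exact ⟨e, he.bd, by rw [← hd.2]; exact (cls_sq he.swap).symm⟩

include hs in
theorem rf_comm {s t : CS T N} (h : (Cr T N).Adj s t) (x : MS T N) :
    rf s (rf t x) = rf t (rf s x) := by
  obtain ⟨v, β⟩ := x
  have hu := un_ne hs h
  by_cases hS : Pos s
  · by_cases hT : Pos t
    · have hadj := adj_dir hs h (β (un s)) (β (un t))
      by_cases ha : ∃ a, Ed (dir s (β (un s))) v a
      · obtain ⟨a, ha⟩ := ha
        by_cases hb : ∃ b, Ed (dir t (β (un t))) v b
        · obtain ⟨b, hb⟩ := hb
          obtain ⟨c, hc⟩ := inter hs hadj ha.1 hb.1 ha.2 hb.2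
          rw [rf_move hs hT hb, rf_move hs hS ha]
          have h1 : Ed (dir s (fl t β (un s))) b c := by
            rw [fl_ne hu.symm]
            exact ⟨hc.cd, by rw [← ha.2]; exact (cls_sq hc).symm⟩
          have h2 : Ed (dir t (fl s β (un t))) a c := by
            rw [fl_ne hu]
            exact ⟨hc.bd, by rw [← hb.2]; exact (cls_sq hc.swap).symm⟩
          rw [rf_move hs hS h1, rf_move hs hT h2, fl_comm hu]
        · have hb' : ∀ b, ¬ Ed (dir t (β (un t))) v b := fun b h2 => hb ⟨b, h2⟩
          rw [rf_stay hT hb', rf_move hs hS ha]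
          rw [rf_stay hT (fun d hd => ?_)]
          rw [fl_ne hu] at hd
          obtain ⟨e, he⟩ := ed_transfer hs hadj ha hd
          exact hb' e he
      · have ha' : ∀ a, ¬ Ed (dir s (β (un s))) v a := fun a h2 => ha ⟨a, h2⟩
        by_cases hb : ∃ b, Ed (dir t (β (un t))) v b
        · obtain ⟨b, hb⟩ := hb
          rw [rf_move hs hT hb, rf_stay hS ha', rf_move hs hT hb]
          refine rf_stay hS (fun d hd => ?_)
          rw [fl_ne hu.symm] at hd
          obtain ⟨e, he⟩ := ed_transfer hs hadj.symm hb hd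
          exact ha' e he
        · have hb' : ∀ b, ¬ Ed (dir t (β (un t))) v b := fun b h2 => hb ⟨b, h2⟩
          rw [rf_stay hT hb', rf_stay hS ha', rf_stay hT hb']
    · rw [rf_neg hT]
      by_cases ha : ∃ a, Ed (dir s (β (un s))) v a
      · obtain ⟨a, ha⟩ := ha
        have h1 : Ed (dir s (fl t β (un s))) v a := by
          rw [fl_ne hu.symm]
          exact ha
        rw [rf_move hs hS ha, rf_move hs hS h1, rf_neg hT, fl_comm hu]
      · have ha' : ∀ a, ¬ Ed (dir s (β (un s))) v a := fun a h2 => ha ⟨a, h2⟩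
        have h1 : ∀ a, ¬ Ed (dir s (fl t β (un s))) v a := by
          rw [fl_ne hu.symm]
          exact ha'
        rw [rf_stay hS ha', rf_stay hS h1, rf_neg hT]
  · rw [rf_neg hS v β]
    by_cases hT : Pos t
    · by_cases hb : ∃ b, Ed (dir t (β (un t))) v b
      · obtain ⟨b, hb⟩ := hb
        have h1 : Ed (dir t (fl s β (un t))) v b := by
          rw [fl_ne hu]
          exact hb
        rw [rf_move hs hT hb, rf_move hs hT h1, rf_neg hS, fl_comm hu]
      · have hb' : ∀ b, ¬ Ed (dir t (β (un t))) v b := fun b h2 => hb ⟨b, h2⟩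
        have h1 : ∀ b, ¬ Ed (dir t (fl s β (un t))) v b := by
          rw [fl_ne hu]
          exact hb'
        rw [rf_stay hT hb', rf_stay hT h1, rf_neg hS]
    · rw [rf_neg hT, rf_neg hT, rf_neg hS, fl_comm hu]

/-- a homomorphism from the group with two elements -/
def inv2 {P : Type} [Group P] (r : P) (h : r * r = 1) : ℤˣ →* P where
  toFun u := if u = 1 then 1 else r
  map_one' := if_pos rfl
  map_mul' u v := by
    rcases Int.units_eq_one_or u with rfl | rfl <;> rcases Int.units_eq_one_or v with rfl | rfl <;>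
      simp [h]

theorem inv2_neg {P : Type} [Group P] (r : P) (h : r * r = 1) : inv2 r h (-1) = r := by
  have h1 : (-1 : ℤˣ) ≠ 1 := by decide
  show (if (-1 : ℤˣ) = 1 then (1 : P) else r) = r
  exact if_neg h1

/-- the right-angled Coxeter group of the crossing graph -/
abbrev WG (T : SimpleGraph V) (N : Subgroup G) : Type :=
  GPP (Cr T N) (fun _ => ℤˣ) (fun _ => ⊥)

/-- the generators -/
def rr (s : CS T N) : WG T N := GPP.of (Cr T N) (fun _ => ℤˣ) (fun _ => ⊥) s (-1)

theorem rr_sq (s : CS T N) : rr s * rr s = 1 := by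
  unfold rr
  rw [← map_mul]
  have : (-1 : ℤˣ) * -1 = 1 := by decide
  rw [this, map_one]

theorem rr_comm {s t : CS T N} (h : (Cr T N).Adj s t) : rr s * rr t = rr t * rr s :=
  PP.gcomm (Λ := Cr T N) (A := fun _ => ℤˣ) (H := fun _ => ⊥) ((Cr T N).ne_of_adj h) _ _ (Or.inl h)

/-- the permutation of a class -/
noncomputable def rp (s : CS T N) : Equiv.Perm (MS T N) := (rf_invol hs s).toPerm

theorem rp_sq (s : CS T N) : rp hs s * rp hs s = 1 := by
  apply Equiv.ext
  intro x
  exact rf_invol hs s x

theorem rp_comm {s t : CS T N} (h : (Cr T N).Adj s t) : rp hs s * rp hs t = rp hs t * rp hs s := by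
  apply Equiv.ext
  intro x
  exact rf_comm hs h x

/-- the action of the right-angled Coxeter group -/
noncomputable def Psi : WG T N →* Equiv.Perm (MS T N) :=
  PP.glift (fun s => inv2 (rp hs s) (rp_sq hs s)) (by
    intro s t hne u v h
    rcases Int.units_eq_one_or u with rfl | rfl
    · rw [map_one, one_mul, mul_one]
    · rcases Int.units_eq_one_or v with rfl | rfl
      · rw [map_one, one_mul, mul_one]
      · rcases h with h | h
        · rw [inv2_neg, inv2_neg]
          exact rp_comm hs h
        · rw [Subgroup.mem_bot] at h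
          exact absurd h (by decide))

theorem Psi_rr (s : CS T N) (x : MS T N) : Psi hs (rr s) x = rf s x := by
  unfold Psi rr
  rw [PP.glift_of, inv2_neg]
  rfl

/-- the element of an oriented edge -/
def ew (T : SimpleGraph V) (N : Subgroup G) (a b : V) : WG T N :=
  rr (cls T N a b) * rr (cls T N b a)

theorem ew_inv (a b : V) : ew T N a b * ew T N b a = 1 := by
  unfold ew
  rw [mul_assoc, ← mul_assoc (rr (cls T N b a)), rr_sq, one_mul, rr_sq]

theorem ew_sq (hs : Special T N) (a b c d : V) (h : Sq T a b c d) :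
    ew T N a b * ew T N b d = ew T N a c * ew T N c d := by
  have h1 : cls T N c d = cls T N a b := (cls_sq h).symm
  have h2 : cls T N b d = cls T N a c := (cls_sq h.swap).symm
  have h3 : cls T N d c = cls T N b a := by rw [← bar_cls c d, h1, bar_cls]
  have h4 : cls T N d b = cls T N c a := by rw [← bar_cls b d, h2, bar_cls]
  unfold ew
  rw [h1, h2, h3, h4]
  have k1 := cr_sq hs h
  have k2 : (Cr T N).Adj (cls T N b a) (cls T N a c) := Cr.bar_left hs k1
  have k3 : (Cr T N).Adj (cls T N a b) (cls T N c a) := Cr.bar_right hs k1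
  have k4 : (Cr T N).Adj (cls T N b a) (cls T N c a) := Cr.bar_right hs k2
  have e1 := rr_comm k1
  have e2 := rr_comm k2
  have e3 := rr_comm k3
  have e4 := rr_comm k4
  calc rr (cls T N a b) * rr (cls T N b a) * (rr (cls T N a c) * rr (cls T N c a))
      = rr (cls T N a b) * (rr (cls T N b a) * rr (cls T N a c)) * rr (cls T N c a) := by group
    _ = rr (cls T N a b) * rr (cls T N a c) * (rr (cls T N b a) * rr (cls T N c a)) := by
        rw [e2]; group
    _ = rr (cls T N a c) * (rr (cls T N a b) * rr (cls T N c a)) * rr (cls T N b a) := by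
        rw [e1, e4]; group
    _ = rr (cls T N a c) * rr (cls T N c a) * (rr (cls T N a b) * rr (cls T N b a)) := by
        rw [e3]; group

/-- the action along an edge -/
theorem Psi_ew {u v : V} (h : T.Adj u v) :
    Psi hs (ew T N u v) (v, fun _ => false) = (u, fun _ => false) := by
  have hne : cls T N u v ≠ cls T N v u := fun h1 => hs.twoSided u v h (cls_eq.1 h1)
  have hne' : cls T N u v ≠ bar (cls T N u v) := hne
  unfold ew
  rw [map_mul, Equiv.Perm.mul_apply, Psi_rr, Psi_rr]
  rcases pos_or (cls T N u v) with hp | hp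
  · have hn : ¬ Pos (cls T N v u) := not_pos_both hne' hp
    rw [rf_neg hn]
    have hfl : fl (cls T N v u) (fun _ : C0 T N => false) =
        fl (cls T N u v) (fun _ : C0 T N => false) := by
      rw [← bar_cls, fl_bar]
    rw [hfl]
    have h1 : Ed (dir (cls T N u v) (fl (cls T N u v) (fun _ : C0 T N => false)
        (un (cls T N u v)))) v u := by
      rw [fl_same]
      exact ⟨h.symm, rfl⟩
    rw [rf_move hs hp h1, fl_fl]
  · have hp' : Pos (cls T N v u) := hp
    have hn : ¬ Pos (cls T N u v) := by
      have h1 : cls T N v u ≠ bar (cls T N v u) := hne.symm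
      exact not_pos_both h1 hp'
    have h1 : Ed (dir (cls T N v u) ((fun _ : C0 T N => false) (un (cls T N v u)))) v u :=
      ⟨h.symm, rfl⟩
    rw [rf_move hs hp' h1, rf_neg hn, ← fl_bar, bar_cls, fl_fl]

end act

end Run7.h528.SP
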