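import Pool.Agent.Run7.h528.SP.Act

/-!
# Special actions: the theorem
-/

set_option autoImplicit false

namespace Run7.h528.SP

open SimpleGraph
open Run7.h528.PP (GPP)
open Pool.Agent.N24.TR (wp wp_nil wp_cons wp_append shift)
open Pool.Agent.Y110.FJ (ClosedE)

section main

variable {G V : Type} [Group G] [MulAction G V] {T : SimpleGraph V} {N : Subgroup G}

theorem sq_smul (hact : ∀ (g : G) (u v : V), T.Adj u v → T.Adj (g • u) (g • v)) (g : G)
    {a b c d : V} (h : Sq T a b c d) : Sq T (g • a) (g • b) (g • c) (g • d) :=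
  ⟨hact g _ _ h.ab, hact g _ _ h.ac, hact g _ _ h.bd, hact g _ _ h.cd,
    fun h1 => h.ad (MulAction.injective g h1), fun h1 => h.bc (MulAction.injective g h1)⟩

theorem step_smul [hN : N.Normal] (hact : ∀ (g : G) (u v : V), T.Adj u v → T.Adj (g • u) (g • v))
    (g : G) (x y : V × V) (h : Step T N x y) : Step T N (g • x) (g • y) := by
  rcases h with h | ⟨n, hn, rfl⟩
  · exact Or.inl (sq_smul hact g h)
  · refine Or.inr ⟨g * n * g⁻¹, hN.conj_mem n hn g, ?_⟩
    rw [mul_smul, mul_smul, inv_smul_smul]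

/-- the action on the classes -/
def gcls [N.Normal] (hact : ∀ (g : G) (u v : V), T.Adj u v → T.Adj (g • u) (g • v)) :
    G →* Equiv.Perm (CS T N) where
  toFun g :=
    { toFun := Quotient.map (fun x => g • x) (fun _ _ h => step_map _ (step_smul hact g) h)
      invFun := Quotient.map (fun x => g⁻¹ • x) (fun _ _ h => step_map _ (step_smul hact g⁻¹) h)
      left_inv := by
        rintro ⟨x⟩
        exact congrArg (Quotient.mk _) (inv_smul_smul g x)
      right_inv := by
        rintro ⟨x⟩
        exact congrArg (Quotient.mk _) (smul_inv_smul g x) }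
  map_one' := by
    apply Equiv.ext
    rintro ⟨x⟩
    exact congrArg (Quotient.mk _) (one_smul G x)
  map_mul' g h := by
    apply Equiv.ext
    rintro ⟨x⟩
    exact congrArg (Quotient.mk _) (mul_smul g h x)

variable [N.Normal] (hact : ∀ (g : G) (u v : V), T.Adj u v → T.Adj (g • u) (g • v))

theorem gcls_cls (g : G) (a b : V) :
    gcls (N := N) hact g (cls T N a b) = cls T N (g • a) (g • b) := rfl

/-- the action of the quotient group on the classes -/
def qcls : G ⧸ N →* Equiv.Perm (CS T N) :=
  QuotientGroup.lift N (gcls hact) (by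
    intro n hn
    apply Equiv.ext
    rintro ⟨x⟩
    exact cls_smul (T := T) (a := x.1) (b := x.2) hn)

theorem qcls_mk (g : G) (a b : V) :
    qcls hact (QuotientGroup.mk' N g) (cls T N a b) = cls T N (g • a) (g • b) := rfl

theorem qcls_adj (q : G ⧸ N) (s t : CS T N) (h : (Cr T N).Adj s t) :
    (Cr T N).Adj (qcls hact q s) (qcls hact q t) := by
  obtain ⟨g, rfl⟩ := QuotientGroup.mk'_surjective N q
  obtain ⟨hne, x, y, z, w, hsq, rfl, rfl⟩ := h
  exact ⟨fun h1 => hne ((qcls hact (QuotientGroup.mk' N g)).injective h1), g • x, g • y, g • z,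
    g • w, sq_smul hact g hsq, rfl, rfl⟩

theorem qcls_adj_iff (q : G ⧸ N) (s t : CS T N) :
    (Cr T N).Adj (qcls hact q s) (qcls hact q t) ↔ (Cr T N).Adj s t := by
  refine ⟨fun h => ?_, qcls_adj hact q s t⟩
  have h1 := qcls_adj hact q⁻¹ _ _ h
  have h2 : ∀ x, qcls hact q⁻¹ (qcls hact q x) = x := by
    intro x
    rw [← Equiv.Perm.mul_apply, ← map_mul, inv_mul_cancel, map_one]
    rfl
  rwa [h2, h2] at h1

/-- the action of the quotient group on the right-angled Coxeter group -/
noncomputable def alp : G ⧸ N →* MulAut (WG T N) :=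
  MonoidHom.mk' (fun q => PP.gmap (Cr T N) (⊥ : Subgroup ℤˣ) (qcls hact q) (qcls_adj_iff hact q)) (by
    intro q q'
    have h1 : (PP.gmap (Cr T N) (⊥ : Subgroup ℤˣ) (qcls hact (q * q'))
        (qcls_adj_iff hact _)).toMonoidHom =
        (PP.gmap (Cr T N) (⊥ : Subgroup ℤˣ) (qcls hact q) (qcls_adj_iff hact _)).toMonoidHom.comp
        (PP.gmap (Cr T N) (⊥ : Subgroup ℤˣ) (qcls hact q')
          (qcls_adj_iff hact _)).toMonoidHom := by
      refine PP.gext fun s u => ?_
      rw [MonoidHom.comp_apply]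
      refine (PP.gmap_of _ _ _ _).trans ?_
      refine Eq.trans ?_ (congrArg _ (PP.gmap_of _ _ _ _)).symm
      refine Eq.trans ?_ (PP.gmap_of _ _ _ _).symm
      rw [map_mul]
      rfl
    exact MulEquiv.ext fun x => DFunLike.congr_fun h1 x)

theorem alp_of (q : G ⧸ N) (s : CS T N) (u : ℤˣ) :
    alp hact q (GPP.of (Cr T N) (fun _ => ℤˣ) (fun _ => ⊥) s u) =
      GPP.of (Cr T N) (fun _ => ℤˣ) (fun _ => ⊥) (qcls hact q s) u :=
  PP.gmap_of _ _ _ _

theorem alp_ew (g : G) (a b : V) :
    alp hact (QuotientGroup.mk' N g) (ew T N a b) = ew T N (g • a) (g • b) := by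
  unfold ew rr
  rw [map_mul, alp_of, alp_of, qcls_mk, qcls_mk]

theorem wp_shift (g : G) {u v : V} (p : T.Walk u v) :
    wp (ew T N) (p.map (shift hact g)) = alp hact (QuotientGroup.mk' N g) (wp (ew T N) p) := by
  induction p with
  | nil => exact (map_one _).symm
  | cons h p ih =>
    rw [Walk.map_cons, wp_cons, wp_cons, map_mul, ih, alp_ew]
    rfl

omit [N.Normal] in
theorem Psi_walk (hs : Special T N) {u v : V} (p : T.Walk u v) :
    Psi hs (wp (ew T N) p) (v, fun _ => false) = (u, fun _ => false) := by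
  induction p with
  | nil => rw [wp_nil, map_one]; rfl
  | cons h p ih => rw [wp_cons, map_mul, Equiv.Perm.mul_apply, ih, Psi_ew hs h]

include hact in
/-- **special actions** -/
theorem special_main {C : ∀ (G : Type) [Group G], Prop} (hC : ClosedE C) (hT : IsMedian T)
    (hQ : C (G ⧸ N)) (hs : Special T N) : C G := by
  have heq : ∀ {u v : V} (p q : T.Walk u v), wp (ew T N) p = wp (ew T N) q := fun p q =>
    wp_all hT (ew T N) (fun u v _ => ew_inv u v) (ew_sq hs) p q
  obtain ⟨o⟩ := hT.conn.nonempty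
  have hex : ∀ g : G, ∃ p : T.Walk o (g • o), True :=
    fun g => (hT.conn.preconnected o (g • o)).elim fun p => ⟨p, trivial⟩
  choose w hw using hex
  let act : MulAction (G ⧸ N) (CS T N) := MulAction.compHom (CS T N) (qcls hact)
  have hC2 : C (WG T N ⋊[alp hact] (G ⧸ N)) :=
    PP.gpw hC (CS T N) (G ⧸ N) ℤˣ ⊥ (Cr T N) (fun q s t h => qcls_adj hact q s t h) (alp hact)
      (fun q s u => alp_of hact q s u) (Pool.Agent.Y430.SS.of_finite hC.base _ inferInstance) hQ
  let Θ : G →* WG T N ⋊[alp hact] (G ⧸ N) :=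
    MonoidHom.mk' (fun g => ⟨wp (ew T N) (w g), QuotientGroup.mk' N g⟩) (by
      intro g h
      apply SemidirectProduct.ext
      · show wp (ew T N) (w (g * h)) = wp (ew T N) (w g) *
          alp hact (QuotientGroup.mk' N g) (wp (ew T N) (w h))
        rw [← wp_shift hact g (w h)]
        have h1 : g • h • o = (g * h) • o := (mul_smul g h o).symm
        rw [heq (w (g * h)) (((w g).append ((w h).map (shift hact g))).copy rfl h1)]
        have h2 : ∀ {x y y' : V} (p : T.Walk x y) (e : y = y'),
            wp (ew T N) (p.copy rfl e) = wp (ew T N) p := by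
          intro x y y' p e
          subst e
          rfl
        rw [h2, wp_append]
        rfl
      · exact map_mul _ _ _)
  refine hC.base.of_injective _ _ Θ ?_ hC2
  rw [injective_iff_map_eq_one]
  intro g hg
  have hgN : g ∈ N := by
    have h1 : (Θ g).right = 1 := by rw [hg]; rfl
    exact (QuotientGroup.eq_one_iff g).1 h1
  have hgl : wp (ew T N) (w g) = 1 := by
    have h1 : (Θ g).left = 1 := by rw [hg]; rfl
    exact h1
  have h2 := Psi_walk hs (w g)
  rw [hgl, map_one] at h2
  have h3 : g • o = o := congrArg Prod.fst h2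
  exact hs.free g hgN o h3

end main

end Run7.h528.SP
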