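import Pool.Agent.N24.TR.Tree
import Pool.Agent.Run7.h528.PP.Wreath

/-!
# Median graphs: products along walks
-/

set_option autoImplicit false

namespace Run7.h528.SP

open SimpleGraph
open Pool.Agent.N24.TR (wp wp_nil wp_cons wp_append)

section median

variable {V : Type} (T : SimpleGraph V)

/-- `m` lies on a shortest path from `x` to `y` -/
def Btw (x m y : V) : Prop := T.dist x m + T.dist m y = T.dist x y

/-- A median graph: for every three vertices there is exactly one vertex which lies on shortest paths
between any two of them. -/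
structure IsMedian : Prop where
  conn : T.Connected
  med : ∀ x y z : V, ∃! m : V, Btw T x m y ∧ Btw T y m z ∧ Btw T z m x

/-- the vertices `a`, `b`, `d`, `c` are the vertices of a `4`-cycle, in this order -/
structure Sq (a b c d : V) : Prop where
  ab : T.Adj a b
  ac : T.Adj a c
  bd : T.Adj b d
  cd : T.Adj c d
  ad : a ≠ d
  bc : b ≠ c

variable {T}

theorem Sq.swap {a b c d : V} (h : Sq T a b c d) : Sq T a c b d :=
  ⟨h.ac, h.ab, h.cd, h.bd, h.ad, h.bc.symm⟩

theorem Sq.flip {a b c d : V} (h : Sq T a b c d) : Sq T b a d c :=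
  ⟨h.ab.symm, h.bd, h.ac, h.cd.symm, h.bc, h.ad⟩

theorem bip (hT : IsMedian T) {u w : V} (h : T.Adj u w) (v : V) :
    T.dist u v = T.dist w v + 1 ∨ T.dist w v = T.dist u v + 1 := by
  obtain ⟨m, ⟨h1, h2, h3⟩, -⟩ := hT.med u w v
  unfold Btw at h1 h2 h3
  have h4 : T.dist u w = 1 := SimpleGraph.dist_eq_one_iff_adj.2 h
  rw [h4] at h1
  have h5 : T.dist u m = 0 ∨ T.dist m w = 0 := by omega
  rcases h5 with h5 | h5
  · have h6 : u = m := (hT.conn.dist_eq_zero_iff).1 h5
    subst h6
    right
    rw [SimpleGraph.dist_comm (u := w) (v := u), h4] at h2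
    omega
  · have h6 : m = w := (hT.conn.dist_eq_zero_iff).1 h5
    subst h6
    left
    rw [SimpleGraph.dist_comm (u := m) (v := u), h4, SimpleGraph.dist_comm (u := v) (v := m),
      SimpleGraph.dist_comm (u := v) (v := u)] at h3
    omega

theorem quad (hT : IsMedian T) {u a b v : V} {n : ℕ} (ha : T.Adj u a) (hb : T.Adj u b)
    (hab : a ≠ b) (hu : T.dist u v = n + 1) (hav : T.dist a v = n) (hbv : T.dist b v = n) :
    ∃ m, Sq T u a b m ∧ T.dist m v + 1 = n := by
  obtain ⟨m, ⟨h1, h2, h3⟩, -⟩ := hT.med a b v
  unfold Btw at h1 h2 h3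
  rw [SimpleGraph.dist_comm (u := v) (v := m), SimpleGraph.dist_comm (u := m) (v := a),
    SimpleGraph.dist_comm (u := v) (v := a), hav] at h3
  rw [hbv] at h2
  rw [SimpleGraph.dist_comm (u := m) (v := b)] at h1
  have h4 : T.dist a b ≤ 2 := by
    have h5 := hT.conn.dist_triangle (u := a) (v := u) (w := b)
    have h6 : T.dist a u = 1 := SimpleGraph.dist_eq_one_iff_adj.2 ha.symm
    have h7 : T.dist u b = 1 := SimpleGraph.dist_eq_one_iff_adj.2 hb
    omega
  have h5 : T.dist a b ≠ 0 := fun h => hab ((hT.conn.dist_eq_zero_iff).1 h)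
  have h6 : T.dist a m = 1 := by omega
  have h7 : T.dist b m = 1 := by omega
  refine ⟨m, ⟨ha, hb, SimpleGraph.dist_eq_one_iff_adj.1 h6, SimpleGraph.dist_eq_one_iff_adj.1 h7,
    ?_, hab⟩, by omega⟩
  rintro rfl
  omega

variable {M : Type} [Group M]

/-- shortest walks give the same product -/
theorem wp_geod (hT : IsMedian T) (e : V → V → M)
    (hsq : ∀ a b c d, Sq T a b c d → e a b * e b d = e a c * e c d) (n : ℕ) :
    ∀ {u v : V} (p q : T.Walk u v), p.length = n → q.length = n → T.dist u v = n →
      wp e p = wp e q := by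
  induction n with
  | zero =>
    intro u v p q hp hq _
    cases p with
    | nil =>
      cases q with
      | nil => rfl
      | cons _ _ => simp at hq
    | cons _ _ => simp at hp
  | succ n ih =>
    intro u v p q hp hq hd
    cases p with
    | nil => simp at hp
    | @cons _ a _ ha p =>
      cases q with
      | nil => simp at hq
      | @cons _ b _ hb q =>
        rw [SimpleGraph.Walk.length_cons] at hp hq
        have hp' : p.length = n := by omega
        have hq' : q.length = n := by omega
        have hav : T.dist a v = n := by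
          have h1 := SimpleGraph.dist_le p
          rcases bip hT ha v with h2 | h2 <;> omega
        have hbv : T.dist b v = n := by
          have h1 := SimpleGraph.dist_le q
          rcases bip hT hb v with h2 | h2 <;> omega
        rw [wp_cons, wp_cons]
        by_cases hab : a = b
        · subst hab
          rw [ih p q hp' hq' hav]
        · obtain ⟨m, hm, hmn⟩ := quad hT ha hb hab hd hav hbv
          obtain ⟨c, hc⟩ := hT.conn.exists_walk_length_eq_dist m v
          have h1 := ih p (Walk.cons hm.bd c) hp' (by rw [SimpleGraph.Walk.length_cons]; omega) hav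
          have h2 := ih q (Walk.cons hm.cd c) hq' (by rw [SimpleGraph.Walk.length_cons]; omega) hbv
          rw [h1, h2, wp_cons, wp_cons, ← mul_assoc, ← mul_assoc, hsq _ _ _ _ hm]

/-- walks with the same endpoints give the same product -/
theorem wp_all (hT : IsMedian T) (e : V → V → M)
    (he : ∀ u v, T.Adj u v → e u v * e v u = 1)
    (hsq : ∀ a b c d, Sq T a b c d → e a b * e b d = e a c * e c d)
    {u v : V} (p q : T.Walk u v) : wp e p = wp e q := by
  have hex : ∀ u v : V, ∃ c : T.Walk u v, c.length = T.dist u v :=
    fun u v => hT.conn.exists_walk_length_eq_dist u v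
  choose c hc using hex
  have key : ∀ {u v : V} (p : T.Walk u v), wp e p = wp e (c u v) := by
    intro u v p
    induction p with
    | nil =>
      exact wp_geod hT e hsq 0 Walk.nil _ (by simp) (by rw [hc]; simp) (by simp)
    | @cons u w v h p ih =>
      rw [wp_cons, ih]
      rcases bip hT h v with h1 | h1
      · rw [← wp_cons (T := T) e h]
        exact wp_geod hT e hsq (T.dist u v) _ _ (by rw [SimpleGraph.Walk.length_cons, hc, h1])
          (hc _ _) rfl
      · have h2 := wp_geod hT e hsq (T.dist w v) (c w v) (Walk.cons h.symm (c u v)) (hc _ _)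
          (by rw [SimpleGraph.Walk.length_cons, hc, h1]) rfl
        rw [h2, wp_cons, ← mul_assoc, he u w h, one_mul]
  rw [key p, key q]

end median

end Run7.h528.SP
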