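import Pool.Agent.Run7.h528.SP.Median

/-!
# Special actions: the permutations given by the classes of oriented edges
-/

set_option autoImplicit false

namespace Run7.h528.SP

open SimpleGraph
open Run7.h528.PP (GPP)

section par

variable {G V : Type} [Group G] [MulAction G V] (T : SimpleGraph V) (N : Subgroup G)

/-- elementary parallelism of oriented edges modulo the group `N` -/
def Step (x y : V × V) : Prop := Sq T x.1 x.2 y.1 y.2 ∨ ∃ n ∈ N, y = n • x

/-- parallelism of oriented edges modulo the group `N` -/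
def Par : V × V → V × V → Prop := Relation.EqvGen (Step T N)

/-- the group `N` acts freely on the vertices and specially -/
structure Special : Prop where
  free : ∀ n ∈ N, ∀ v : V, n • v = v → n = 1
  twoSided : ∀ a b, T.Adj a b → ¬ Par T N (a, b) (b, a)
  noSelf : ∀ v a b, T.Adj v a → T.Adj v b → Par T N (v, a) (v, b) → a = b
  noInter : ∀ v a b x y z w, T.Adj v a → T.Adj v b → Sq T x y z w → Par T N (v, a) (x, y) →
    Par T N (v, b) (x, z) → ∃ c, Sq T v a b c

/-- the setoid of parallelism -/
def SR : Setoid (V × V) := Relation.EqvGen.setoid (Step T N)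

/-- the classes of oriented edges -/
abbrev CS : Type := Quotient (SR T N)

/-- the class of an oriented edge -/
def cls (a b : V) : CS T N := Quotient.mk (SR T N) (a, b)

variable {T N}

theorem cls_eq {a b c d : V} : cls T N a b = cls T N c d ↔ Par T N (a, b) (c, d) :=
  Quotient.eq (r := SR T N)

theorem cls_sq {a b c d : V} (h : Sq T a b c d) : cls T N a b = cls T N c d :=
  cls_eq.2 (Relation.EqvGen.rel _ _ (Or.inl h))

theorem cls_smul {a b : V} {n : G} (hn : n ∈ N) : cls T N (n • a) (n • b) = cls T N a b :=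
  (cls_eq.2 (Relation.EqvGen.rel _ _ (Or.inr ⟨n, hn, rfl⟩))).symm

theorem step_map {x y : V × V} (f : V × V → V × V)
    (hf : ∀ x y, Step T N x y → Step T N (f x) (f y)) (h : Par T N x y) : Par T N (f x) (f y) := by
  induction h with
  | rel x y h => exact Relation.EqvGen.rel _ _ (hf x y h)
  | refl x => exact Relation.EqvGen.refl _
  | symm x y _ ih => exact Relation.EqvGen.symm _ _ ih
  | trans x y z _ _ h1 h2 => exact Relation.EqvGen.trans _ _ _ h1 h2

theorem step_swap (x y : V × V) (h : Step T N x y) : Step T N x.swap y.swap := by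
  rcases h with h | ⟨n, hn, rfl⟩
  · exact Or.inl h.flip
  · exact Or.inr ⟨n, hn, rfl⟩

/-- the reversed class -/
def bar : CS T N → CS T N :=
  Quotient.map Prod.swap (fun _ _ h => step_map Prod.swap step_swap h)

theorem bar_cls (a b : V) : bar (cls T N a b) = cls T N b a := rfl

theorem bar_bar (s : CS T N) : bar (bar s) = s := by
  induction s using Quotient.inductionOn with
  | h x => rfl

variable (T N) in
/-- the graph of the crossings -/
def Cr : SimpleGraph (CS T N) where
  Adj s t := s ≠ t ∧ ∃ x y z w, Sq T x y z w ∧ s = cls T N x y ∧ t = cls T N x z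
  symm := ⟨by
    rintro s t ⟨hne, x, y, z, w, h, rfl, rfl⟩
    exact ⟨hne.symm, x, z, y, w, h.swap, rfl, rfl⟩⟩
  loopless := ⟨fun s h => h.1 rfl⟩

variable (hs : Special T N)

include hs in
theorem Cr.bar_left {s t : CS T N} (h : (Cr T N).Adj s t) : (Cr T N).Adj (bar s) t := by
  obtain ⟨hne, x, y, z, w, h, rfl, rfl⟩ := h
  have h1 : cls T N x z = cls T N y w := cls_sq h.swap
  refine ⟨?_, y, x, w, z, h.flip, rfl, h1⟩
  rw [bar_cls, h1]
  intro h2
  exact h.ad (hs.noSelf y x w h.ab.symm h.bd (cls_eq.1 h2))

include hs in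
theorem cr_sq {x y z w : V} (h : Sq T x y z w) : (Cr T N).Adj (cls T N x y) (cls T N x z) :=
  ⟨fun h1 => h.bc (hs.noSelf x y z h.ab h.ac (cls_eq.1 h1)), x, y, z, w, h, rfl, rfl⟩

include hs in
theorem Cr.bar_right {s t : CS T N} (h : (Cr T N).Adj s t) : (Cr T N).Adj s (bar t) :=
  (Cr.bar_left hs h.symm).symm

include hs in
theorem inter {s t : CS T N} (h : (Cr T N).Adj s t) {v a b : V} (ha : T.Adj v a) (hb : T.Adj v b)
    (has : cls T N v a = s) (hbt : cls T N v b = t) : ∃ c, Sq T v a b c := by
  obtain ⟨_, x, y, z, w, h, h1, h2⟩ := h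
  exact hs.noInter v a b x y z w ha hb h (cls_eq.1 (has.trans h1)) (cls_eq.1 (hbt.trans h2))

/-! ### the positive classes -/

/-- classes up to reversal -/
def BR (T : SimpleGraph V) (N : Subgroup G) : Setoid (CS T N) where
  r s t := t = s ∨ t = bar s
  iseqv := by
    refine ⟨fun _ => Or.inl rfl, ?_, ?_⟩
    · rintro s t (h | h)
      · exact Or.inl h.symm
      · exact Or.inr (by rw [h, bar_bar])
    · rintro s t u (h | h) (h' | h')
      · exact Or.inl (h'.trans h)
      · exact Or.inr (by rw [h', h])
      · exact Or.inr (by rw [h', h])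
      · exact Or.inl (by rw [h', h, bar_bar])

/-- classes of unoriented edges -/
abbrev C0 (T : SimpleGraph V) (N : Subgroup G) : Type := Quotient (BR T N)

/-- the unoriented class -/
def un (s : CS T N) : C0 T N := Quotient.mk (BR T N) s

theorem un_bar (s : CS T N) : un (bar s) = un s :=
  Quotient.sound (s := BR T N) (Or.inr (bar_bar s).symm)

theorem un_eq {s t : CS T N} (h : un s = un t) : t = s ∨ t = bar s := Quotient.exact h

/-- positive classes -/
def Pos (s : CS T N) : Prop := (Quotient.out (un s)) = s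

theorem pos_or (s : CS T N) : Pos s ∨ Pos (bar s) := by
  have h : un (Quotient.out (un s)) = un s := Quotient.out_eq (un s)
  rcases un_eq h with h1 | h1
  · exact Or.inl h1.symm
  · right
    show Quotient.out (un (bar s)) = bar s
    rw [un_bar]
    conv_rhs => rw [h1, bar_bar]

theorem not_pos_both {s : CS T N} (hne : s ≠ bar s) (h : Pos s) : ¬ Pos (bar s) := by
  intro h1
  unfold Pos at h h1
  rw [un_bar] at h1
  exact hne (h.symm.trans h1)

/-! ### the permutations -/

/-- the set on which the group acts -/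
abbrev MS (T : SimpleGraph V) (N : Subgroup G) : Type := V × (C0 T N → Bool)

open Classical in
/-- change one bit -/
noncomputable def fl (s : CS T N) (β : C0 T N → Bool) : C0 T N → Bool :=
  Function.update β (un s) (!β (un s))

theorem fl_fl (s : CS T N) (β : C0 T N → Bool) : fl s (fl s β) = β := by
  classical
  funext u
  by_cases h : u = un s
  · subst h
    simp [fl]
  · simp [fl, h]

theorem fl_same (s : CS T N) (β : C0 T N → Bool) : fl s β (un s) = !β (un s) := by
  classical
  simp [fl]

theorem fl_ne {s t : CS T N} (h : un s ≠ un t) (β : C0 T N → Bool) : fl s β (un t) = β (un t) := by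
  classical
  simp [fl, h.symm]

theorem fl_comm {s t : CS T N} (h : un s ≠ un t) (β : C0 T N → Bool) :
    fl s (fl t β) = fl t (fl s β) := by
  classical
  funext u
  by_cases h1 : u = un s
  · subst h1
    simp [fl, h]
  · by_cases h2 : u = un t
    · subst h2
      simp [fl, h.symm]
    · simp [fl, h1, h2]

theorem fl_bar (s : CS T N) (β : C0 T N → Bool) : fl (bar s) β = fl s β := by
  unfold fl
  rw [un_bar]

/-- the direction -/
def dir (s : CS T N) (b : Bool) : CS T N := if b then bar s else s

theorem dir_not (s : CS T N) (b : Bool) : dir s (!b) = bar (dir s b) := by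
  cases b
  · rfl
  · exact (bar_bar s).symm

/-- there is an edge from `v` to `a` in the class `d` -/
def Ed (d : CS T N) (v a : V) : Prop := T.Adj v a ∧ cls T N v a = d

theorem Ed.rev {d : CS T N} {v a : V} (h : Ed d v a) : Ed (bar d) a v :=
  ⟨h.1.symm, by rw [← h.2, bar_cls]⟩

include hs in
theorem Ed.unique {d : CS T N} {v a b : V} (h : Ed d v a) (h' : Ed d v b) : a = b :=
  hs.noSelf v a b h.1 h'.1 (cls_eq.1 (h.2.trans h'.2.symm))

open Classical in
/-- the involution of a class -/
noncomputable def rf (s : CS T N) (x : MS T N) : MS T N :=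
  if Pos s then
    if h : ∃ a, Ed (dir s (x.2 (un s))) x.1 a then (h.choose, fl s x.2) else x
  else (x.1, fl s x.2)

theorem rf_neg {s : CS T N} (h : ¬ Pos s) (v : V) (β : C0 T N → Bool) :
    rf s (v, β) = (v, fl s β) := by
  unfold rf
  rw [if_neg h]

include hs in
theorem rf_move {s : CS T N} (h : Pos s) {v a : V} {β : C0 T N → Bool}
    (ha : Ed (dir s (β (un s))) v a) : rf s (v, β) = (a, fl s β) := by
  unfold rf
  have h1 : ∃ a, Ed (dir s (((v, β) : MS T N).2 (un s))) ((v, β) : MS T N).1 a := ⟨a, ha⟩
  rw [if_pos h, dif_pos h1]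
  have h2 : h1.choose = a := Ed.unique hs h1.choose_spec ha
  rw [h2]

theorem rf_stay {s : CS T N} (h : Pos s) {v : V} {β : C0 T N → Bool}
    (ha : ∀ a, ¬ Ed (dir s (β (un s))) v a) : rf s (v, β) = (v, β) := by
  unfold rf
  have h1 : ¬ ∃ a, Ed (dir s (((v, β) : MS T N).2 (un s))) ((v, β) : MS T N).1 a :=
    fun ⟨a, h2⟩ => ha a h2
  rw [if_pos h, dif_neg h1]

end par

end Run7.h528.SP
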